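import Pool.Agent.TG.Free

/-!
# TG-BFR: forms on `N × A^r`

PLAN.  Linear equivalence `Bil(N, A^r) ≃ Π t : Fin r, N^*`: `B ↦ (t ↦ (n ↦ B(n, e_t)))`
(`e_t = Pi.single t 1`), inverse `(ψ_t) ↦ ((n, v) ↦ ∑ t, ψ_t (v t • n))`.  It respects the
gradings `bilG` and `Grd.pi (fun _ => HN.dual) dg`: by `bilp_apply`
`(B_d)(n, e_t) = ∑ i ≤ d, B(p_i n, p_(d-i) e_t)` and `p_j e_t = e_t` if `j = dg t` and `0`
otherwise (`Grd.pi_p`, `G.p_one`, and `p_j 1 = p_j (p_0 1) = 0` for `j ≠ 0` by `G.orth`).
So `(B_d)(n, e_t) = B(p_(d - dg t) n, e_t)` if `dg t ≤ d` and `0` otherwise.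
Then `hp_iso`, `hp_pi`, `hp_dual`.
-/

set_option autoImplicit false

noncomputable section

universe u

namespace Pool.Agent.TG

open Polynomial

variable {k A : Type u} [Field k] [CommRing A] [Algebra k A]
variable {N : Type u} [AddCommGroup N] [Module k N] [Module A N] [IsScalarTower k A N]

theorem frG_single (G : GAlg k A) {r : ℕ} (dg : Fin r → ℕ) (t : Fin r) (j : ℕ) :
    (frG G dg).p j (Pi.single t 1) = if j = dg t then Pi.single t 1 else 0 := by
  funext s
  unfold frG
  rw [Grd.pi_p]
  by_cases hs : s = t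
  · subst hs
    rw [Pi.single_eq_same]
    by_cases h1 : j = dg s
    · subst h1
      rw [if_pos le_rfl, if_pos rfl, Nat.sub_self, G.p_one, Pi.single_eq_same]
    · rw [if_neg h1, Pi.zero_apply]
      split_ifs with h2
      · have h3 : G.p (j - dg s) (G.p 0 1) = 0 := by
          rw [G.orth, if_neg (by omega)]
        rwa [G.p_one] at h3
      · rfl
  · rw [Pi.single_eq_of_ne hs]
    have h4 : (if j = dg t then (Pi.single t 1 : Fin r → A) else 0) s = 0 := by
      split_ifs
      · exact Pi.single_eq_of_ne hs 1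
      · rfl
    rw [h4]
    split_ifs <;> simp

/-- `B ↦ (t ↦ (n ↦ B(n, e_t)))` -/
private def bfrMap (k A N : Type u) [Field k] [CommRing A] [Algebra k A] [AddCommGroup N]
    [Module k N] [Module A N] [IsScalarTower k A N] (r : ℕ) :
    Bil k A N (Fin r → A) →ₗ[k] (Fin r → Du k N) where
  toFun B := fun t => Du.mk
    { toFun := fun n => ev B.1 n (Pi.single t 1)
      map_add' := fun n n' => by simp
      map_smul' := fun c n => by simp }
  map_add' B B' := by
    funext t
    exact Du.ext (fun n => rfl)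
  map_smul' c B := by
    funext t
    exact Du.ext (fun n => rfl)

private theorem bfrMap_ev {r : ℕ} (B : Bil k A N (Fin r → A)) (t : Fin r) (n : N) :
    Du.fn (bfrMap k A N r B t) n = ev B.1 n (Pi.single t 1) := rfl

omit [IsScalarTower k A N] in
private theorem bfr_sum {r : ℕ} (B : Bil k A N (Fin r → A)) (n : N) (v : Fin r → A) :
    ev B.1 n v = ∑ t, ev B.1 (v t • n) (Pi.single t 1) := by
  have h1 : v = ∑ t, v t • (Pi.single t 1 : Fin r → A) := by
    funext s
    rw [Finset.sum_apply, Finset.sum_eq_single s]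
    · simp
    · intro t _ hts
      rw [Pi.smul_apply, Pi.single_eq_of_ne (fun h => hts h.symm), smul_zero]
    · intro h
      exact absurd (Finset.mem_univ s) h
  conv_lhs => rw [h1]
  rw [ev_sum_right]
  exact Finset.sum_congr rfl fun t _ => (B.2 (v t) n (Pi.single t 1)).symm

private theorem bfrMap_bij {r : ℕ} : Function.Bijective (bfrMap k A N r) := by
  constructor
  · rw [← LinearMap.ker_eq_bot, LinearMap.ker_eq_bot']
    intro B hB
    refine Subtype.ext (BF.ext fun n v => ?_)
    rw [bfr_sum B n v]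
    refine Finset.sum_eq_zero fun t _ => ?_
    rw [← bfrMap_ev, hB]
    rfl
  · intro ψ
    refine ⟨⟨BF.mk (fun n v => ∑ t, Du.fn (ψ t) (v t • n)) ?_ ?_ ?_ ?_, ?_⟩, ?_⟩
    · intro n n' v
      rw [← Finset.sum_add_distrib]
      exact Finset.sum_congr rfl fun t _ => by rw [smul_add, map_add]
    · intro c n v
      rw [Finset.mul_sum]
      exact Finset.sum_congr rfl fun t _ => by
        rw [smul_comm (v t) c n, map_smul, smul_eq_mul]
    · intro n v v'
      rw [← Finset.sum_add_distrib]
      exact Finset.sum_congr rfl fun t _ => by rw [Pi.add_apply, add_smul, map_add]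
    · intro c n v
      rw [Finset.mul_sum]
      exact Finset.sum_congr rfl fun t _ => by
        rw [Pi.smul_apply, smul_assoc, map_smul, smul_eq_mul]
    · intro a n v
      rw [BF.ev_mk, BF.ev_mk]
      refine Finset.sum_congr rfl fun t _ => ?_
      rw [Pi.smul_apply, smul_eq_mul, smul_smul, mul_comm]
    · funext t
      refine Du.ext fun n => ?_
      rw [bfrMap_ev, BF.ev_mk, Finset.sum_eq_single t]
      · rw [Pi.single_eq_same, one_smul]
      · intro s _ hst
        rw [Pi.single_eq_of_ne hst, zero_smul, map_zero]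
      · intro h
        exact absurd (Finset.mem_univ t) h

theorem hp_bil_fr [Module.Finite k A] [Module.Finite k N] (G : GAlg k A) {HN : Grd k N}
    (hN : Cmp G HN) {r : ℕ} (dg : Fin r → ℕ) :
    hp (bilG hN (cmp_fr G dg)) = hp HN * ∑ t, X ^ dg t := by
  have hh : Hom0 (bilG hN (cmp_fr G dg)) (Grd.pi (fun _ => HN.dual) dg)
      (LinearEquiv.ofBijective (bfrMap k A N r) bfrMap_bij).toLinearMap := by
    intro d B
    change bfrMap k A N r ((bilG hN (cmp_fr G dg)).p d B) =
      (Grd.pi (fun _ => HN.dual) dg).p d (bfrMap k A N r B)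
    funext t
    rw [Grd.pi_p]
    refine Du.ext fun n => ?_
    rw [bfrMap_ev, bilG_p, bilp_apply]
    have h1 : ∀ i ∈ Finset.range (d + 1),
        ev B.1 (HN.p i n) ((frG G dg).p (d - i) (Pi.single t 1)) =
          if d - i = dg t then ev B.1 (HN.p i n) (Pi.single t 1) else 0 := by
      intro i _
      rw [frG_single]
      split_ifs <;> simp
    rw [Finset.sum_congr rfl h1]
    by_cases h2 : dg t ≤ d
    · rw [if_pos h2, Grd.dual_p, bfrMap_ev, Finset.sum_eq_single (d - dg t)]
      · rw [if_pos (by omega)]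
      · intro i hi hne
        have := Finset.mem_range.mp hi
        rw [if_neg (by omega)]
      · intro h
        exact absurd (Finset.mem_range.mpr (by omega)) h
    · rw [if_neg h2]
      refine Finset.sum_eq_zero fun i _ => ?_
      rw [if_neg (by omega)]
  rw [hp_iso _ _ _ hh, hp_pi, Finset.mul_sum]
  refine Finset.sum_congr rfl fun t _ => ?_
  rw [hp_dual, mul_comm]

end Pool.Agent.TG
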