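import Pool.Agent.TG.Defs

/-!
# TG-CYC: a graded module without antisymmetric forms is cyclic

Let `I = {a : A | G.p 0 a = 0}`; it is an ideal (`G.mul_p`, orthogonality), and
`a - G.p 0 a ∈ I`, `G.p 0 a = algebraMap k A c` (`G.one_p`).  `I` consists of nilpotent elements:
if `p_j a = 0` for `j < 1` and `p_j b = 0` for `j < n` then `p_j (a b) = 0` for `j < n + 1`; so
`p_j (a ^ n) = 0` for `j < n`, `a ^ G.top = 0` (`Grd.total`).  Hence `I ≤ Ideal.jacobson ⊥`.
If `φ, ψ` are functionals on `M` vanishing on `I M` then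
`B(m, n) = φ(m) ψ(n) - ψ(m) φ(n)` is in `S^(-1)(M)`: `a m - c m ∈ I M` for
`G.p 0 a = algebraMap k A c`.  So `B = 0` for all `φ, ψ`, and so there is `x`
with `M = k x + I M`.  Nakayama: `M = A x`.
The map `A → M`, `a ↦ a x` is surjective between spaces of the same dimension, so bijective.
-/

set_option autoImplicit false

noncomputable section

universe u

namespace Pool.Agent.TG

variable {k A : Type u} [Field k] [CommRing A] [Algebra k A]

theorem cyc_pmul (G : GAlg k A) (l i j : ℕ) (a b : A) :
    G.p l (G.p i a * G.p j b) = if l = i + j then G.p i a * G.p j b else 0 := by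
  conv_lhs => rw [← G.mul_p i j a b, G.orth]
  rw [G.mul_p]

theorem cyc_low (G : GAlg k A) {m n : ℕ} {a b : A} (ha : ∀ j < m, G.p j a = 0)
    (hb : ∀ j < n, G.p j b = 0) : ∀ l < m + n, G.p l (a * b) = 0 := by
  intro l hl
  have e : a * b = (∑ i ∈ Finset.range G.top, G.p i a) * ∑ j ∈ Finset.range G.top, G.p j b := by
    rw [G.total, G.total]
  rw [e, Finset.sum_mul_sum, map_sum]
  refine Finset.sum_eq_zero (fun i _ => ?_)
  rw [map_sum]
  refine Finset.sum_eq_zero (fun j _ => ?_)
  rw [cyc_pmul]
  split_ifs with h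
  · rcases lt_or_ge i m with hi | hi
    · rw [ha i hi, zero_mul]
    · rw [hb j (by omega), mul_zero]
  · rfl

theorem cyc_pow (G : GAlg k A) {a : A} (ha : G.p 0 a = 0) (n : ℕ) :
    ∀ j < n, G.p j (a ^ n) = 0 := by
  induction n with
  | zero => intro j hj; omega
  | succ n ih =>
    have h1 : ∀ j < 1, G.p j a = 0 := by
      intro j hj
      have : j = 0 := by omega
      rw [this, ha]
    rw [pow_succ]
    exact cyc_low G ih h1

theorem cyc_ideal (G : GAlg k A) : ∃ I : Ideal A, (∀ a, a ∈ I ↔ G.p 0 a = 0) ∧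
    I ≤ Ideal.jacobson ⊥ := by
  let I : Ideal A :=
    { carrier := {a | G.p 0 a = 0}
      add_mem' := by
        intro a b ha hb
        have ha' : G.p 0 a = 0 := ha
        have hb' : G.p 0 b = 0 := hb
        change G.p 0 (a + b) = 0
        rw [map_add, ha', hb', add_zero]
      zero_mem' := by
        change G.p 0 0 = 0
        rw [map_zero]
      smul_mem' := by
        intro c a ha
        have ha' : G.p 0 a = 0 := ha
        change G.p 0 (c * a) = 0
        have h0 : ∀ j < 0, G.p j c = 0 := by intro j hj; omega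
        have h1 : ∀ j < 1, G.p j a = 0 := by
          intro j hj
          have : j = 0 := by omega
          rw [this, ha']
        exact cyc_low G h0 h1 0 (by omega) }
  refine ⟨I, fun a => Iff.rfl, ?_⟩
  refine le_trans ?_ (Ideal.radical_le_jacobson (I := (⊥ : Ideal A)))
  intro a ha
  have ha' : G.p 0 a = 0 := ha
  refine ⟨G.top, ?_⟩
  have h : a ^ G.top = 0 := by
    rw [← G.total (a ^ G.top)]
    exact Finset.sum_eq_zero (fun j hj => cyc_pow G ha' G.top j (Finset.mem_range.mp hj))
  rw [h]
  exact Ideal.zero_mem _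

theorem cyc_gen (G : GAlg k A) {M : Type u} [AddCommGroup M] [Module k M] [Module A M]
    [IsScalarTower k A M] [Module.Finite k M]
    (hS : Module.finrank k (Sy k A M (-1)) = 0) :
    ∃ x : M, ∀ m : M, ∃ a : A, a • x = m := by
  obtain ⟨I, hI, hJ⟩ := cyc_ideal G
  have hfA : Module.Finite A M := Module.Finite.of_restrictScalars_finite k A M
  set P : Submodule A M := I • (⊤ : Submodule A M) with hP
  -- functionals vanishing on `I M`
  have hact : ∀ (φ : M →ₗ[k] k), (∀ m ∈ P, φ m = 0) → ∀ (a : A) (c : k),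
      G.p 0 a = algebraMap k A c → ∀ m : M, φ (a • m) = c * φ m := by
    intro φ hφ a c hc m
    have h1 : a - algebraMap k A c ∈ I := by
      rw [hI, map_sub, ← hc, G.orth, if_pos rfl, sub_self]
    have h2 : (a - algebraMap k A c) • m ∈ P := Submodule.smul_mem_smul h1 trivial
    have h3 := hφ _ h2
    rw [sub_smul, map_sub, algebraMap_smul, φ.map_smul, smul_eq_mul] at h3
    exact sub_eq_zero.mp h3
  have hfS : Module.Finite k (Sy k A M (-1)) := by
    have : Module.Finite k (BF k M M) := inferInstance
    infer_instance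
  have hsub : Subsingleton (Sy k A M (-1)) := Module.finrank_zero_iff.mp hS
  have key : ∀ (φ ψ : M →ₗ[k] k), (∀ m ∈ P, φ m = 0) → (∀ m ∈ P, ψ m = 0) →
      ∀ m n : M, φ m * ψ n = ψ m * φ n := by
    intro φ ψ hφ hψ m n
    let B : BF k M M := BF.mk (fun m n => φ m * ψ n - ψ m * φ n)
      (by intro v v' w; simp only [map_add]; ring)
      (by intro c v w; simp only [map_smul, smul_eq_mul]; ring)
      (by intro v w w'; simp only [map_add]; ring)
      (by intro c v w; simp only [map_smul, smul_eq_mul]; ring)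
    have hB : B ∈ Sy k A M (-1) := by
      refine ⟨fun a m n => ?_, fun m n => ?_⟩
      · obtain ⟨c, hc⟩ := G.one_p a
        change φ (a • m) * ψ n - ψ (a • m) * φ n = φ m * ψ (a • n) - ψ m * φ (a • n)
        rw [hact φ hφ a c hc, hact ψ hψ a c hc, hact φ hφ a c hc, hact ψ hψ a c hc]
        ring
      · change φ m * ψ n - ψ m * φ n = -1 * (φ n * ψ m - ψ n * φ m)
        ring
    have h0 : (⟨B, hB⟩ : Sy k A M (-1)) = 0 := Subsingleton.elim _ _
    have h1 : B = 0 := congrArg Subtype.val h0
    have h2 : ev B m n = 0 := by rw [h1]; rfl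
    have h3 : φ m * ψ n - ψ m * φ n = 0 := h2
    exact sub_eq_zero.mp h3
  -- the generator
  have hx : ∃ x : M, (⊤ : Submodule A M) ≤ Submodule.span A {x} ⊔ I • ⊤ := by
    by_cases htop : P = ⊤
    · exact ⟨0, by rw [← hP, htop]; exact le_sup_right⟩
    · obtain ⟨x, hx⟩ : ∃ x : M, x ∉ P := by
        by_contra hcon
        push Not at hcon
        exact htop (eq_top_iff.mpr (fun m _ => hcon m))
      refine ⟨x, fun y _ => ?_⟩
      let Pk : Submodule k M := P.restrictScalars k
      have hxk : x ∉ Pk := hx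
      obtain ⟨φ, hφx, hφ⟩ := Submodule.exists_dual_map_eq_bot_of_notMem (p := Pk) hxk inferInstance
      have hφ' : ∀ m ∈ P, φ m = 0 := by
        intro m hm
        have : φ m ∈ Pk.map φ := Submodule.mem_map_of_mem hm
        rw [hφ] at this
        exact (Submodule.mem_bot k).mp this
      by_cases hy : y ∈ Pk ⊔ Submodule.span k {x}
      · obtain ⟨p, hp, z, hz, hpz⟩ := Submodule.mem_sup.mp hy
        obtain ⟨c, hc⟩ := Submodule.mem_span_singleton.mp hz
        rw [← hpz, ← hc, add_comm]
        refine Submodule.add_mem_sup ?_ hp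
        rw [← algebraMap_smul A c x]
        exact Submodule.smul_mem _ _ (Submodule.mem_span_singleton_self x)
      · obtain ⟨ψ, hψy, hψ⟩ := Submodule.exists_dual_map_eq_bot_of_notMem
          (p := Pk ⊔ Submodule.span k {x}) hy inferInstance
        have hψ0 : ∀ m ∈ Pk ⊔ Submodule.span k {x}, ψ m = 0 := by
          intro m hm
          have : ψ m ∈ (Pk ⊔ Submodule.span k {x}).map ψ := Submodule.mem_map_of_mem hm
          rw [hψ] at this
          exact (Submodule.mem_bot k).mp this
        have hψ' : ∀ m ∈ P, ψ m = 0 := fun m hm =>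
          hψ0 m (Submodule.mem_sup_left (show m ∈ Pk from hm))
        have hψx : ψ x = 0 := hψ0 x (Submodule.mem_sup_right (Submodule.mem_span_singleton_self x))
        have h := key φ ψ hφ' hψ' x y
        rw [hψx, zero_mul] at h
        exact absurd h (mul_ne_zero hφx hψy)
  obtain ⟨x, hx⟩ := hx
  refine ⟨x, fun m => ?_⟩
  have hle : (⊤ : Submodule A M) ≤ Submodule.span A {x} :=
    Submodule.le_of_le_smul_of_le_jacobson_bot hfA.fg_top hJ hx
  exact Submodule.mem_span_singleton.mp (hle trivial)

theorem cyc (G : GAlg k A) [Module.Finite k A] {M : Type u} [AddCommGroup M] [Module k M]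
    [Module A M] [IsScalarTower k A M] [Module.Finite k M]
    (hS : Module.finrank k (Sy k A M (-1)) = 0)
    (hd : Module.finrank k M = Module.finrank k A) : Nonempty (M ≃ₗ[A] A) := by
  obtain ⟨x, hx⟩ := cyc_gen G hS
  let f : A →ₗ[A] M := LinearMap.toSpanSingleton A M x
  have hsurj : Function.Surjective f := by
    intro m
    obtain ⟨a, ha⟩ := hx m
    exact ⟨a, by rw [← ha]; rfl⟩
  have hinj : Function.Injective f := by
    have h1 : Function.Surjective (f.restrictScalars k) := hsurj
    have h2 : Function.Injective (f.restrictScalars k) :=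
      (LinearMap.injective_iff_surjective_of_finrank_eq_finrank hd.symm).mpr h1
    exact h2
  exact ⟨(LinearEquiv.ofBijective f ⟨hinj, hsurj⟩).symm⟩

end Pool.Agent.TG
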