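import Pool.Agent.TG.Maps

/-!
# TG-EXA: the first part of the four term sequence

PLAN.  Setting: `0 → N → F → M → 0` exact.
`exA_inj`: if `B(π f, π f') = 0` for all `f, f'` then `B = 0` (`π` surjective).
`exA_ker`: `⊆`: `π (i n) = 0`.  `⊇`: let `B ∈ S^e(F)` with `B(i n, f) = 0`; then also
`B(f, i n) = e B(i n, f) = 0`, so `B(f, f')` depends only on `π f`, `π f'` (if `π f = π g` then
`f - g ∈ ker π = range i`).  Define `B' (m, m') = B (s m) (s m')` with
`s = Function.surjInv hπ` (use `BF.mk`; additivity etc. because `s (m + m') - s m - s m'` lies in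
the range of `i`).
`mA_hom`, `mB_hom`, `mC_hom`: use `syG_p`, `bilG_p`, `bilp_apply`, `Subtype.ext`, `BF.ext`,
`mA_ev`, `mB_ev`, `mC_ev`; for `mC_hom` the flipped sum has to be reflected
(`Finset.sum_range_reflect`, as in the proof of `sy_mem` in `Defs.lean`).
-/

set_option autoImplicit false

noncomputable section

universe u

namespace Pool.Agent.TG

variable {k A : Type u} [Field k] [CommRing A] [Algebra k A]
variable {M : Type u} [AddCommGroup M] [Module k M] [Module A M] [IsScalarTower k A M]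
variable {N : Type u} [AddCommGroup N] [Module k N] [Module A N] [IsScalarTower k A N]
variable {F : Type u} [AddCommGroup F] [Module k F] [Module A F] [IsScalarTower k A F]

theorem exA_inj (π : F →ₗ[A] M) (hπ : Function.Surjective π) (e : k) :
    Function.Injective (mA π e) := by
  intro B B' h
  refine Subtype.ext (BF.ext (fun m m' => ?_))
  obtain ⟨f, rfl⟩ := hπ m
  obtain ⟨f', rfl⟩ := hπ m'
  rw [← mA_ev π e B, ← mA_ev π e B', h]

theorem exA_ker (i : N →ₗ[A] F) (π : F →ₗ[A] M) (hπ : Function.Surjective π)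
    (hex : LinearMap.range i = LinearMap.ker π) (e : k) :
    LinearMap.range (mA π e) = LinearMap.ker (mB i e) := by
  ext B
  rw [LinearMap.mem_range, LinearMap.mem_ker]
  constructor
  · rintro ⟨B', rfl⟩
    refine Subtype.ext (BF.ext (fun n f => ?_))
    rw [mB_ev, mA_ev]
    have h0 : π (i n) = 0 := LinearMap.mem_ker.mp (hex ▸ LinearMap.mem_range_self i n)
    rw [h0, ev_zero_left]
    rfl
  · intro hB
    have h1 : ∀ n f, ev B.1 (i n) f = 0 := by
      intro n f
      have h := congrArg (fun C : Bil k A N F => ev C.1 n f) hB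
      exact h
    have h2 : ∀ f n, ev B.1 f (i n) = 0 := fun f n => by rw [B.2.2, h1, mul_zero]
    have hm : ∀ f f', π f = π f' → ∃ n, i n = f - f' := by
      intro f f' hff
      have h : f - f' ∈ LinearMap.range i := by
        rw [hex]
        exact LinearMap.mem_ker.mpr (by rw [map_sub, hff, sub_self])
      exact h
    have h3 : ∀ f f' g, π f = π f' → ev B.1 f g = ev B.1 f' g := by
      intro f f' g hff
      obtain ⟨n, hn⟩ := hm f f' hff
      have h4 := h1 n g
      rw [hn, ev_sub_left] at h4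
      exact sub_eq_zero.mp h4
    have h4 : ∀ f g g', π g = π g' → ev B.1 f g = ev B.1 f g' := by
      intro f g g' hff
      obtain ⟨n, hn⟩ := hm g g' hff
      have h5 := h2 f n
      rw [hn, ev_sub_right] at h5
      exact sub_eq_zero.mp h5
    have hs : ∀ m, π (Function.surjInv hπ m) = m := Function.surjInv_eq hπ
    have hk : ∀ (c : k) f, π (c • f) = c • π f := fun c f => π.map_smul_of_tower c f
    refine ⟨⟨BF.mk (fun m m' => ev B.1 (Function.surjInv hπ m) (Function.surjInv hπ m'))
      ?_ ?_ ?_ ?_, ?_, ?_⟩, ?_⟩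
    · intro v v' w
      rw [← ev_add_left]
      exact h3 _ _ _ (by rw [map_add, hs, hs, hs])
    · intro c v w
      rw [← ev_smul_left]
      exact h3 _ _ _ (by rw [hk, hs, hs])
    · intro v w w'
      rw [← ev_add_right]
      exact h4 _ _ _ (by rw [map_add, hs, hs, hs])
    · intro c v w
      rw [← ev_smul_right]
      exact h4 _ _ _ (by rw [hk, hs, hs])
    · intro a m n
      rw [BF.ev_mk, BF.ev_mk]
      rw [h3 (Function.surjInv hπ (a • m)) (a • Function.surjInv hπ m) _
        (by rw [map_smul, hs, hs]), B.2.1]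
      exact h4 _ _ _ (by rw [map_smul, hs, hs])
    · intro m n
      rw [BF.ev_mk, BF.ev_mk]
      exact B.2.2 _ _
    · refine Subtype.ext (BF.ext (fun f f' => ?_))
      rw [mA_ev, BF.ev_mk]
      rw [h3 (Function.surjInv hπ (π f)) f _ (hs _)]
      exact h4 _ _ _ (hs _)

theorem mA_hom {G : GAlg k A} {HF : Grd k F} {HM : Grd k M} (hF : Cmp G HF) (hM : Cmp G HM)
    (π : F →ₗ[A] M) (hg : ∀ d f, π (HF.p d f) = HM.p d (π f)) (e : k) :
    Hom0 (syG hM e) (syG hF e) (mA π e) := by
  intro d B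
  refine Subtype.ext (BF.ext (fun f f' => ?_))
  rw [mA_ev, syG_p, syG_p, bilp_apply, bilp_apply]
  refine Finset.sum_congr rfl (fun j _ => ?_)
  rw [mA_ev, hg, hg]

theorem mB_hom {G : GAlg k A} {HF : Grd k F} {HN : Grd k N} (hF : Cmp G HF) (hN : Cmp G HN)
    (i : N →ₗ[A] F) (hg : ∀ d n, i (HN.p d n) = HF.p d (i n)) (e : k) :
    Hom0 (syG hF e) (bilG hN hF) (mB i e) := by
  intro d B
  refine Subtype.ext (BF.ext (fun n f => ?_))
  rw [mB_ev, syG_p, bilG_p, bilp_apply, bilp_apply]
  refine Finset.sum_congr rfl (fun j _ => ?_)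
  rw [mB_ev, hg]

theorem mC_hom {G : GAlg k A} {HF : Grd k F} {HN : Grd k N} (hF : Cmp G HF) (hN : Cmp G HN)
    (i : N →ₗ[A] F) (hg : ∀ d n, i (HN.p d n) = HF.p d (i n)) (e : k) (he : e * e = 1) :
    Hom0 (bilG hN hF) (syG hN (-e)) (mC i e he) := by
  intro d C
  refine Subtype.ext (BF.ext (fun n n' => ?_))
  rw [mC_ev, syG_p, bilG_p, bilp_apply, bilp_apply, bilp_apply]
  simp only [mC_ev]
  rw [Finset.sum_sub_distrib, ← Finset.mul_sum]
  have e1 : ∑ j ∈ Finset.range (d + 1), ev C.1 (HN.p j n') (HF.p (d - j) (i n)) =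
      ∑ j ∈ Finset.range (d + 1), ev C.1 (HN.p (d - j) n') (i (HN.p j n)) := by
    rw [← Finset.sum_range_reflect]
    refine Finset.sum_congr rfl (fun j hj => ?_)
    have := Finset.mem_range.mp hj
    rw [hg, show d + 1 - 1 - j = d - j by omega, show d - (d - j) = j by omega]
  have e2 : ∑ j ∈ Finset.range (d + 1), ev C.1 (HN.p j n) (HF.p (d - j) (i n')) =
      ∑ j ∈ Finset.range (d + 1), ev C.1 (HN.p j n) (i (HN.p (d - j) n')) := by
    refine Finset.sum_congr rfl (fun j _ => ?_)
    rw [hg]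
  rw [e1, e2]

end Pool.Agent.TG
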