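import Pool.Agent.TG.HPa

/-!
# TG-HPB: Hilbert polynomials and exact sequences

PLAN.  `hp_short`: compare coefficients.  In degree `i` the maps `f`, `g` restrict to
`range (G.p i) → range (G'.p i) → range (G''.p i)`, injective, surjective, exact (if
`G'.p i v = v`, `g v = 0` then `v = f u` and `v = G'.p i (f u) = f (G.p i u)`; if `w = G''.p i w`,
`w = g v`, then `w = g (G'.p i v)`).  Rank-nullity.
`hp_four`: the image of `g` is a graded subspace of `W` (`Grd.pull` along its inclusion);
apply `hp_short` twice.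
-/

set_option autoImplicit false

noncomputable section

universe u

namespace Pool.Agent.TG

open Polynomial

variable {k U V W Z : Type u} [Field k] [AddCommGroup U] [Module k U] [AddCommGroup V]
  [Module k V] [AddCommGroup W] [Module k W] [AddCommGroup Z] [Module k Z]

/-- rank count in one degree -/
theorem hpb_rank [Module.Finite k V] (P : U →ₗ[k] U) (P' : V →ₗ[k] V) (P'' : W →ₗ[k] W)
    (f : U →ₗ[k] V) (g : V →ₗ[k] W) (hf : Function.Injective f) (hg : Function.Surjective g)
    (hfg : LinearMap.range f = LinearMap.ker g) (h1 : ∀ u, f (P u) = P' (f u))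
    (h2 : ∀ v, g (P' v) = P'' (g v)) (hP : ∀ v, P' (P' v) = P' v) :
    Module.finrank k (LinearMap.range P') =
      Module.finrank k (LinearMap.range P) + Module.finrank k (LinearMap.range P'') := by
  have hr := LinearMap.finrank_range_add_finrank_ker (g.domRestrict (LinearMap.range P'))
  have e1 : LinearMap.range (g.domRestrict (LinearMap.range P')) = LinearMap.range P'' := by
    rw [LinearMap.range_domRestrict]
    apply le_antisymm
    · rintro w ⟨v, ⟨v', rfl⟩, rfl⟩
      exact ⟨g v', (h2 v').symm⟩
    · rintro w ⟨w', rfl⟩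
      obtain ⟨v, rfl⟩ := hg w'
      exact ⟨P' v, ⟨v, rfl⟩, h2 v⟩
  have e2 : (LinearMap.ker (g.domRestrict (LinearMap.range P'))).map
      (LinearMap.range P').subtype = (LinearMap.range P).map f := by
    apply le_antisymm
    · rintro v ⟨x, hx, rfl⟩
      have hx' : g (x : V) = 0 := hx
      have hx2 : (x : V) ∈ LinearMap.range f := by
        rw [hfg]; exact hx'
      obtain ⟨u, hu⟩ := hx2
      obtain ⟨v', hv'⟩ := x.2
      refine ⟨P u, ⟨u, rfl⟩, ?_⟩
      rw [h1, hu]
      show P' (x : V) = (x : V)
      rw [← hv', hP]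
    · rintro v ⟨u', ⟨u, rfl⟩, rfl⟩
      refine ⟨⟨f (P u), ⟨f u, (h1 u).symm⟩⟩, ?_, rfl⟩
      show g (f (P u)) = 0
      have h3 : f (P u) ∈ LinearMap.ker g := by
        rw [← hfg]; exact ⟨P u, rfl⟩
      exact h3
  have e3 := (Submodule.equivMapOfInjective (LinearMap.range P').subtype
    (Submodule.injective_subtype _) (LinearMap.ker (g.domRestrict (LinearMap.range P')))).finrank_eq
  have e4 := (Submodule.equivMapOfInjective f hf (LinearMap.range P)).finrank_eq
  rw [e1] at hr
  rw [e2] at e3
  omega

theorem hp_short [Module.Finite k V] (G : Grd k U) (G' : Grd k V) (G'' : Grd k W)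
    (f : U →ₗ[k] V) (g : V →ₗ[k] W) (hf : Function.Injective f) (hg : Function.Surjective g)
    (hfg : LinearMap.range f = LinearMap.ker g) (h1 : Hom0 G G' f) (h2 : Hom0 G' G'' g) :
    hp G' = hp G + hp G'' := by
  refine Polynomial.ext (fun i => ?_)
  rw [Polynomial.coeff_add, hp_coeff, hp_coeff, hp_coeff]
  have h3 := hpb_rank (G.p i) (G'.p i) (G''.p i) f g hf hg hfg (h1 i) (h2 i)
    (fun v => by rw [G'.orth, if_pos rfl])
  rw [h3]
  push_cast
  ring

theorem hp_four [Module.Finite k V] [Module.Finite k W] (G1 : Grd k U) (G2 : Grd k V)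
    (G3 : Grd k W) (G4 : Grd k Z) (f : U →ₗ[k] V) (g : V →ₗ[k] W) (h : W →ₗ[k] Z)
    (hf : Function.Injective f) (hfg : LinearMap.range f = LinearMap.ker g)
    (hgh : LinearMap.range g = LinearMap.ker h) (hh : Function.Surjective h)
    (h1 : Hom0 G1 G2 f) (h2 : Hom0 G2 G3 g) (h3 : Hom0 G3 G4 h) :
    hp G1 + hp G3 = hp G2 + hp G4 := by
  have hK : ∀ i (u : LinearMap.range g), G3.p i ((LinearMap.range g).subtype u) ∈
      LinearMap.range (LinearMap.range g).subtype := by
    rintro i ⟨u, v, rfl⟩
    rw [Submodule.range_subtype]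
    exact ⟨G2.p i v, h2 i v⟩
  have hinj : Function.Injective (LinearMap.range g).subtype := Submodule.injective_subtype _
  have a1 := hp_short G1 G2 (G3.pull (LinearMap.range g).subtype hinj hK) f g.rangeRestrict hf
    g.surjective_rangeRestrict (by rw [hfg, LinearMap.ker_rangeRestrict]) h1
    (fun i v => by
      apply hinj
      rw [Grd.pull_p]
      exact h2 i v)
  have a2 := hp_short (G3.pull (LinearMap.range g).subtype hinj hK) G3 G4
    (LinearMap.range g).subtype h hinj hh (by rw [Submodule.range_subtype, hgh])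
    (fun i v => Grd.pull_p _ _ _ _ _ _) h3
  rw [a1, a2]
  ring

end Pool.Agent.TG
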