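import Pool.Agent.TG.ExA
import Pool.Agent.TG.ExB
import Pool.Agent.TG.HPb

/-!
# TG-FOUR: the four term sequence and Hilbert polynomials

PLAN.  `hp_four` with `exA_inj`, `exA_ker`, `exB_ker`, `exB_surj`, `mA_hom`, `mB_hom`, `mC_hom`.
-/

set_option autoImplicit false

noncomputable section

universe u

namespace Pool.Agent.TG

variable {k A : Type u} [Field k] [CommRing A] [Algebra k A]
variable {M : Type u} [AddCommGroup M] [Module k M] [Module A M] [IsScalarTower k A M]
variable {N : Type u} [AddCommGroup N] [Module k N] [Module A N] [IsScalarTower k A N]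
variable {F : Type u} [AddCommGroup F] [Module k F] [Module A F] [IsScalarTower k A F]

theorem hp_seq [Module.Finite k F] [Module.Finite k N] {G : GAlg k A} {HF : Grd k F}
    {HM : Grd k M} {HN : Grd k N} (hF : Cmp G HF) (hM : Cmp G HM) (hN : Cmp G HN)
    (i : N →ₗ[A] F) (π : F →ₗ[A] M) (hπ : Function.Surjective π)
    (hex : LinearMap.range i = LinearMap.ker π)
    (hgi : ∀ d n, i (HN.p d n) = HF.p d (i n)) (hgπ : ∀ d f, π (HF.p d f) = HM.p d (π f))
    (h2 : (2 : k) ≠ 0) (e : k) (he : e * e = 1)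
    (LA : ∀ C ∈ Bil k A N M, ∃ C' ∈ Bil k A F M, ∀ n m, ev C' (i n) m = ev C n m)
    (LB : ∀ K ∈ Bil k A N N, ∃ C ∈ Bil k A N F, ∀ n n', ev C n (i n') = ev K n n')
    (LC : ∀ C ∈ Bil k A N F, ∃ C' ∈ Bil k A F F, ∀ n f, ev C' (i n) f = ev C n f) :
    hp (syG hM e) + hp (bilG hN hF) = hp (syG hF e) + hp (syG hN (-e)) := by
  exact hp_four _ _ _ _ (mA π e) (mB i e) (mC i e he) (exA_inj π hπ e)
    (exA_ker i π hπ hex e) (exB_ker i π hπ hex h2 e he LA LC) (exB_surj i h2 e he LB)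
    (mA_hom hF hM π hgπ e) (mB_hom hF hN i hgi e) (mC_hom hF hN i hgi e he)

end Pool.Agent.TG
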