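import Pool.Agent.TG.Defs

/-!
# TG-HPA: basic properties of Hilbert polynomials

PLAN.  `hp G` is a sum of monomials over `range G.top`, so for `i < G.top` its coefficient is the
finrank of the range of `G.p i`; for `i ≥ G.top` the map `G.p i` is zero (`Grd.p_ge`).
`hp_eval`: `V` is the direct sum of the ranges of `G.p i`, `i < top` (induction on the number of
summands, or the linear equivalence `V ≃ Π i : Fin top, range (G.p i)`, `v ↦ (G.p i v)`, inverse
= sum of the components; use `Module.finrank_pi_fintype`).
`hp_iso`: `e` restricts to an equivalence of the ranges (`LinearEquiv.finrank_eq`,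
`LinearMap.range_comp` etc.).  `hp_dual`: the map `φ ↦ φ ∘ G.p i` has the same rank as `G.p i`
(`LinearMap.finrank_range_dualMap_eq_finrank_range`).
`hp_dvd`: `Polynomial.X_pow_dvd_iff`.
-/

set_option autoImplicit false

noncomputable section

universe u

namespace Pool.Agent.TG

open Polynomial

variable {k V W : Type u} [Field k] [AddCommGroup V] [Module k V] [AddCommGroup W] [Module k W]

theorem hp_coeff (G : Grd k V) (i : ℕ) :
    (hp G).coeff i = (Module.finrank k (LinearMap.range (G.p i)) : ℤ) := by
  unfold hp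
  rw [finsetSum_coeff]
  simp only [coeff_monomial]
  rw [Finset.sum_ite_eq']
  split_ifs with h
  · rfl
  · have h1 : G.top ≤ i := by simpa using h
    have h2 : G.p i = 0 := LinearMap.ext fun v => G.p_ge h1 v
    rw [h2, LinearMap.range_zero, finrank_bot]
    rfl

theorem hp_coeff_zero (G : Grd k V) {i : ℕ} (h : ∀ v, G.p i v = 0) : (hp G).coeff i = 0 := by
  rw [hp_coeff]
  have h2 : G.p i = 0 := LinearMap.ext h
  rw [h2, LinearMap.range_zero, finrank_bot]
  rfl

/-- the decomposition of `V` into its components. -/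
private def hpaEquiv (G : Grd k V) : V →ₗ[k] (∀ i : Fin G.top, LinearMap.range (G.p i)) :=
  LinearMap.pi (fun i => (G.p i).rangeRestrict)

private theorem hpaEquiv_bij (G : Grd k V) : Function.Bijective (hpaEquiv G) := by
  constructor
  · rw [← LinearMap.ker_eq_bot, LinearMap.ker_eq_bot']
    intro v hv
    rw [← G.total v]
    refine Finset.sum_eq_zero fun i hi => ?_
    have h1 := congrFun hv ⟨i, Finset.mem_range.mp hi⟩
    exact congrArg Subtype.val h1
  · intro w
    refine ⟨∑ i : Fin G.top, (w i : V), ?_⟩
    funext j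
    refine Subtype.ext ?_
    change G.p j (∑ i : Fin G.top, (w i : V)) = (w j : V)
    rw [map_sum, Finset.sum_eq_single j]
    · obtain ⟨u, hu⟩ := (w j).2
      rw [← hu, G.orth, if_pos rfl]
    · intro i _ hij
      obtain ⟨u, hu⟩ := (w i).2
      rw [← hu, G.orth, if_neg (fun h => hij (Fin.ext h.symm))]
    · intro h
      exact absurd (Finset.mem_univ _) h

theorem hp_eval [Module.Finite k V] (G : Grd k V) :
    (hp G).eval 1 = (Module.finrank k V : ℤ) := by
  have h1 := (LinearEquiv.ofBijective (hpaEquiv G) (hpaEquiv_bij G)).finrank_eq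
  rw [Module.finrank_pi_fintype] at h1
  rw [h1]
  unfold hp
  rw [eval_finsetSum]
  simp only [eval_monomial, one_pow, mul_one]
  rw [Finset.sum_range]
  push_cast
  rfl

theorem hp_iso (G : Grd k V) (G' : Grd k W) (e : V ≃ₗ[k] W) (h : Hom0 G G' e.toLinearMap) :
    hp G = hp G' := by
  refine Polynomial.ext fun i => ?_
  rw [hp_coeff, hp_coeff]
  have h1 : e.toLinearMap ∘ₗ G.p i = G'.p i ∘ₗ e.toLinearMap := LinearMap.ext fun v => h i v
  have h2 : LinearMap.range (G'.p i) = (LinearMap.range (G.p i)).map e.toLinearMap := by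
    rw [← LinearMap.range_comp, h1, LinearMap.range_comp, LinearEquiv.range, Submodule.map_top]
  rw [h2]
  have h3 : Module.finrank k ((LinearMap.range (G.p i)).map e.toLinearMap) =
      Module.finrank k (LinearMap.range (G.p i)) := LinearEquiv.finrank_map_eq e _
  rw [h3]

theorem hp_dual [Module.Finite k V] (G : Grd k V) : hp G.dual = hp G := by
  refine Polynomial.ext fun i => ?_
  rw [hp_coeff, hp_coeff]
  have h1 := LinearMap.finrank_range_dualMap_eq_finrank_range (G.p i)
  exact congrArg (fun n : ℕ => (n : ℤ)) h1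

theorem hp_dvd (G : Grd k V) {n : ℕ} (h : ∀ j < n, ∀ v, G.p j v = 0) : X ^ n ∣ hp G := by
  rw [X_pow_dvd_iff]
  intro d hd
  exact hp_coeff_zero G (h d hd)

end Pool.Agent.TG
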