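import Pool.Agent.TG.HPa

/-!
# TG-HPC: Hilbert polynomial of a product of shifted graded spaces

PLAN.  Compare coefficients of `X ^ n`.  By `Grd.pi_p` the range of `(Grd.pi G d).p n` is the
product over `t` of the ranges of `(G t).p (n - d t)` (for `d t ≤ n`) and of `0` (otherwise):
a linear equivalence `range ((Grd.pi G d).p n) ≃ Π t, range (if d t ≤ n then (G t).p (n - d t) else 0)`,
then `Module.finrank_pi_fintype`.  `Polynomial.coeff_X_pow_mul'` for the right hand side.
-/

set_option autoImplicit false

noncomputable section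

universe u

namespace Pool.Agent.TG

open Polynomial

variable {k : Type u} [Field k]

private theorem hpc_rank {ι : Type} [Fintype ι] {V : ι → Type u} [∀ t, AddCommGroup (V t)]
    [∀ t, Module k (V t)] [∀ t, Module.Finite k (V t)] (q : ∀ t, V t →ₗ[k] V t)
    (P : (∀ t, V t) →ₗ[k] (∀ t, V t)) (hP : ∀ v t, P v t = q t (v t)) :
    Module.finrank k (LinearMap.range P) = ∑ t, Module.finrank k (LinearMap.range (q t)) := by
  let J : (∀ t, LinearMap.range (q t)) →ₗ[k] (∀ t, V t) :=
    { toFun := fun f t => (f t).1
      map_add' := fun f g => rfl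
      map_smul' := fun c f => rfl }
  have hJ : Function.Injective J := by
    intro f g h
    funext t
    exact Subtype.ext (congrFun h t)
  have hr : LinearMap.range P = LinearMap.range J := by
    apply le_antisymm
    · rintro _ ⟨v, rfl⟩
      refine ⟨fun t => ⟨q t (v t), LinearMap.mem_range_self _ _⟩, ?_⟩
      funext t
      exact (hP v t).symm
    · rintro _ ⟨f, rfl⟩
      choose w hw using fun t => (f t).2
      refine ⟨w, ?_⟩
      funext t
      rw [hP, hw]
      rfl
  rw [hr, LinearMap.finrank_range_of_inj hJ, Module.finrank_pi_fintype]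

theorem hp_pi {ι : Type} [Fintype ι] {V : ι → Type u} [∀ t, AddCommGroup (V t)]
    [∀ t, Module k (V t)] [∀ t, Module.Finite k (V t)] (G : ∀ t, Grd k (V t)) (d : ι → ℕ) :
    hp (Grd.pi G d) = ∑ t, X ^ d t * hp (G t) := by
  ext n
  rw [hp_coeff, Polynomial.finsetSum_coeff,
    hpc_rank (fun t => if d t ≤ n then (G t).p (n - d t) else 0) ((Grd.pi G d).p n)
      (fun v t => by
        rw [Grd.pi_p]
        split_ifs <;> rfl)]
  push_cast
  apply Finset.sum_congr rfl
  intro t _
  rw [Polynomial.coeff_X_pow_mul']
  by_cases h : d t ≤ n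
  · rw [if_pos h, hp_coeff, if_pos h]
  · rw [if_neg h, if_neg h]
    simp

end Pool.Agent.TG
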