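import Pool.Agent.TG.Free
import Pool.Agent.TG.Bas

/-!
# TG-KER: the graded syzygy

PLAN.  Take the homogeneous basis `b` of `M` from `exists_hom_basis` and `π = cov b`
(`cov_surj`, `cov_graded`).  `N = LinearMap.ker (cov b)` (a submodule over `A` of `Fin r → A`),
`i` its inclusion.  Grading of `N`: `Grd.pull (frG G dg)` along the inclusion (over `k`),
`Grd.pull_p`; compatibility `Cmp` follows from `cmp_fr` by injectivity of the inclusion.
`N.low (m + 1)` is `cov_low` (with `hl`).
-/

set_option autoImplicit false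

noncomputable section

universe u

namespace Pool.Agent.TG

open Polynomial

variable {k A : Type u} [Field k] [CommRing A] [Algebra k A] {G : GAlg k A}

/-- The kernel of an `A`-linear graded map out of `A^r` is a graded module. -/
theorem ker_graded [Module.Finite k A] {r : ℕ} (dg : Fin r → ℕ) {M : Type u} [AddCommGroup M]
    [Module A M] (π : (Fin r → A) →ₗ[A] M)
    (h : ∀ d f, π f = 0 → π ((frG G dg).p d f) = 0) :
    ∃ (N : GM k A G) (i : N.X →ₗ[A] (Fin r → A)), Function.Injective i ∧
      LinearMap.range i = LinearMap.ker π ∧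
      (∀ d n, i (N.H.p d n) = (frG G dg).p d (i n)) := by
  let K : Submodule A (Fin r → A) := LinearMap.ker π
  let f : K →ₗ[k] (Fin r → A) := K.subtype.restrictScalars k
  have hf : Function.Injective f := Subtype.val_injective
  have hr : ∀ d u, (frG G dg).p d (f u) ∈ LinearMap.range f := by
    intro d u
    exact ⟨⟨(frG G dg).p d (f u), h d (f u) u.2⟩, rfl⟩
  let H : Grd k K := (frG G dg).pull f hf hr
  have hH : ∀ d u, f (H.p d u) = (frG G dg).p d (f u) := (frG G dg).pull_p f hf hr
  have hsmul : ∀ (a : A) (u : K), f (a • u) = a • f u := fun a u => rfl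
  have hc : Cmp G H := by
    intro i j a u
    apply hf
    rw [hH, hsmul, hH, cmp_fr G dg i j a (f u)]
  have : Module.Finite k K := Module.Finite.of_injective f hf
  refine ⟨{ X := K, H := H, hc := hc }, K.subtype, Subtype.val_injective, ?_, ?_⟩
  · exact K.range_subtype
  · intro d n
    exact hH d n

theorem exists_cover [Module.Finite k A] (M : GM k A G) (m : ℕ) (hl : M.low m) :
    ∃ (r : ℕ) (dg : Fin r → ℕ) (N : GM k A G) (i : N.X →ₗ[A] (Fin r → A))
      (π : (Fin r → A) →ₗ[A] M.X),
      Function.Injective i ∧ Function.Surjective π ∧ LinearMap.range i = LinearMap.ker π ∧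
      (∀ d n, i (N.H.p d n) = (frG G dg).p d (i n)) ∧
      (∀ d f, π ((frG G dg).p d f) = M.H.p d (π f)) ∧
      N.low (m + 1) ∧ hp M.H = ∑ t, X ^ dg t := by
  obtain ⟨r, dg, b, hb, hhp⟩ := exists_hom_basis M.H
  have hg : ∀ d f, cov (b : Fin r → M.X) ((frG G dg).p d f) =
      M.H.p d (cov (b : Fin r → M.X) f) :=
    fun d f => cov_graded G M.hc dg b hb d f
  obtain ⟨N, i, hi, hrange, hig⟩ := ker_graded (G := G) dg (cov (A := A) (b : Fin r → M.X))
    (fun d f h0 => by rw [hg, h0, map_zero])
  refine ⟨r, dg, N, i, cov (A := A) (b : Fin r → M.X), hi, cov_surj b, hrange, hig, hg, ?_, hhp⟩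
  intro j hj x
  apply hi
  rw [hig, map_zero]
  refine cov_low G M.hc dg b hb hl (i x) ?_ hj
  have : i x ∈ LinearMap.range i := ⟨x, rfl⟩
  rw [hrange] at this
  exact this

end Pool.Agent.TG
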