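import Pool.Agent.TG.CoreS
import Pool.Agent.TG.Brg

/-!
# TG-MAIN: Tachikawa's first conjecture for graded commutative algebras
-/

set_option autoImplicit false

noncomputable section

universe u

namespace Pool.Agent.TG

open CategoryTheory

variable {k A : Type u} [Field k] [CommRing A] [Algebra k A]

theorem main_mod [Module.Finite k A] (h2 : (2 : k) ≠ 0)
    (𝒜 : ℕ → Submodule k A) [GradedAlgebra 𝒜]
    (h0 : ∀ a ∈ 𝒜 0, ∃ c : k, a = algebraMap k A c) (s : ℕ)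
    (hs : ∀ i, s < i → 𝒜 i = ⊥) {M : Type u}
    [AddCommGroup M] [Module k M] [Module A M] [IsScalarTower k A M] [Module.Finite k M]
    [Nontrivial M] (ℳ : ℕ → Submodule k M) [DirectSum.Decomposition ℳ]
    (hsm : ∀ i j (a : A) (m : M), a ∈ 𝒜 i → m ∈ ℳ j → a • m ∈ ℳ (i + j)) (t : ℕ)
    (ht : ∀ i, t < i → ℳ i = ⊥)
    (hv : ∀ i : ℕ, 1 ≤ i → i ≤ 2 * t + s + 2 →
      Subsingleton (Abelian.Ext.{u} (ModuleCat.of A M) (ModuleCat.of A (Du k M)) i)) :
    Module.finrank k A ≤ Module.finrank k M ∧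
      (Module.finrank k A = Module.finrank k M → Nonempty (M ≃ₗ[A] A)) :=
  core_mod_sharp (toGAlg 𝒜 h0 s hs) h2 (toGrd ℳ t ht) (cmp_toGrd 𝒜 h0 s hs ℳ hsm t ht) s t le_rfl
    le_rfl hv inferInstance

theorem main_alg [Module.Finite k A] (h2 : (2 : k) ≠ 0)
    (𝒜 : ℕ → Submodule k A) [GradedAlgebra 𝒜]
    (h0 : ∀ a ∈ 𝒜 0, ∃ c : k, a = algebraMap k A c) (s : ℕ)
    (hs : ∀ i, s < i → 𝒜 i = ⊥)
    (hv : ∀ i : ℕ, 1 ≤ i → i ≤ 3 * s + 2 →
      Subsingleton (Abelian.Ext.{u} (ModuleCat.of A (Du k A)) (ModuleCat.of A A) i)) :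
    Module.Injective A A :=
  core_alg_sharp (toGAlg 𝒜 h0 s hs) h2 s le_rfl hv

theorem exists_top [Module.Finite k A] (𝒜 : ℕ → Submodule k A) [GradedAlgebra 𝒜] :
    ∃ s, ∀ i, s < i → 𝒜 i = ⊥ := by
  classical
  obtain ⟨S, hS⟩ := (inferInstance : Module.Finite k A).fg_top
  refine ⟨(S.biUnion (fun a => (DirectSum.decompose 𝒜 a).support)).sup id, fun i hi => ?_⟩
  rw [eq_bot_iff]
  intro a ha
  rw [Submodule.mem_bot, ← (show dproj 𝒜 i a = a by
    rw [dproj_of_mem 𝒜 i i ha, if_pos rfl])]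
  have h1 : a ∈ Submodule.span k (S : Set A) := by
    rw [hS]
    exact Submodule.mem_top
  refine Submodule.span_induction (p := fun x _ => dproj 𝒜 i x = 0) ?_ ?_ ?_ ?_ h1
  · intro x hx
    by_contra hc
    have h3 : i ∈ S.biUnion (fun a => (DirectSum.decompose 𝒜 a).support) := by
      rw [Finset.mem_biUnion]
      refine ⟨x, hx, ?_⟩
      rw [DFinsupp.mem_support_iff]
      intro h4
      apply hc
      change (DirectSum.decompose 𝒜 x i : A) = 0
      rw [h4]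
      rfl
    have h4 := Finset.le_sup (f := id) h3
    simp only [id] at h4
    omega
  · simp
  · intro x y _ _ hx hy
    rw [map_add, hx, hy, add_zero]
  · intro c x _ hx
    rw [map_smul, hx, smul_zero]

theorem main_tc [Module.Finite k A] (h2 : (2 : k) ≠ 0)
    (𝒜 : ℕ → Submodule k A) [GradedAlgebra 𝒜]
    (h0 : ∀ a ∈ 𝒜 0, ∃ c : k, a = algebraMap k A c)
    (hv : ∀ I : ModuleCat.{u} A, Module.Finite A I → Module.Injective A I → ∀ i : ℕ, 0 < i →
      Subsingleton (Abelian.Ext.{u} I (ModuleCat.of A A) i)) :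
    Module.Injective A A := by
  obtain ⟨s, hs⟩ := exists_top (k := k) 𝒜
  refine main_alg h2 𝒜 h0 s hs (fun i hi _ => hv _ ?_ ?_ i hi)
  · exact Module.Finite.of_restrictScalars_finite k A (Du k A)
  · exact dual_inj k (Module.Basis.singleton Unit A)

end Pool.Agent.TG
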