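import Pool.Agent.TG.Defs

/-!
# TG: the maps of the four term sequence

For `N → F → M` the maps are
`mA : S^e(M) → S^e(F)` (pull back), `mB : S^e(F) → Bil(N, F)` (restriction),
`mC : Bil(N, F) → S^(-e)(N)`, `C ↦ C(n, i n') - e C(n', i n)`.
-/

set_option autoImplicit false

noncomputable section

universe u

namespace Pool.Agent.TG

variable {k A : Type u} [Field k] [CommRing A] [Algebra k A]
variable {M : Type u} [AddCommGroup M] [Module k M] [Module A M] [IsScalarTower k A M]
variable {N : Type u} [AddCommGroup N] [Module k N] [Module A N] [IsScalarTower k A N]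
variable {F : Type u} [AddCommGroup F] [Module k F] [Module A F] [IsScalarTower k A F]

/-- pull back of forms -/
def mA (π : F →ₗ[A] M) (e : k) : Sy k A M e →ₗ[k] Sy k A F e where
  toFun B := ⟨bcomp (π.restrictScalars k) (π.restrictScalars k) B.1, by
    refine ⟨fun a m n => ?_, fun m n => ?_⟩
    · simp only [ev_bcomp, LinearMap.coe_restrictScalars, map_smul]
      exact B.2.1 a _ _
    · simp only [ev_bcomp]
      exact B.2.2 _ _⟩
  map_add' B B' := Subtype.ext (BF.ext (fun v w => by simp))
  map_smul' c B := Subtype.ext (BF.ext (fun v w => by simp))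

theorem mA_ev (π : F →ₗ[A] M) (e : k) (B : Sy k A M e) (f f' : F) :
    ev (mA π e B).1 f f' = ev B.1 (π f) (π f') := rfl

/-- restriction of forms -/
def mB (i : N →ₗ[A] F) (e : k) : Sy k A F e →ₗ[k] Bil k A N F where
  toFun B := ⟨bcomp (i.restrictScalars k) LinearMap.id B.1, by
    intro a m n
    simp only [ev_bcomp, LinearMap.coe_restrictScalars, map_smul, LinearMap.id_apply]
    exact B.2.1 a _ _⟩
  map_add' B B' := Subtype.ext (BF.ext (fun v w => by simp))
  map_smul' c B := Subtype.ext (BF.ext (fun v w => by simp))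

theorem mB_ev (i : N →ₗ[A] F) (e : k) (B : Sy k A F e) (n : N) (f : F) :
    ev (mB i e B).1 n f = ev B.1 (i n) f := rfl

/-- `C ↦ C(n, i n') - e C(n', i n)` -/
def mC (i : N →ₗ[A] F) (e : k) (he : e * e = 1) : Bil k A N F →ₗ[k] Sy k A N (-e) where
  toFun C := ⟨bcomp LinearMap.id (i.restrictScalars k) C.1 -
      e • bflip (bcomp LinearMap.id (i.restrictScalars k) C.1), by
    refine ⟨fun a m n => ?_, fun m n => ?_⟩
    · simp only [ev_sub, ev_smul, ev_bflip, ev_bcomp, LinearMap.coe_restrictScalars, map_smul,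
        LinearMap.id_apply]
      rw [C.2 a m (i n), ← C.2 a n (i m)]
    · simp only [ev_sub, ev_smul, ev_bflip, ev_bcomp, LinearMap.coe_restrictScalars,
        LinearMap.id_apply]
      linear_combination (-(ev C.1 m (i n))) * he⟩
  map_add' B B' := Subtype.ext (BF.ext (fun v w => by simp; ring))
  map_smul' c B := Subtype.ext (BF.ext (fun v w => by simp; ring))

theorem mC_ev (i : N →ₗ[A] F) (e : k) (he : e * e = 1) (C : Bil k A N F) (n n' : N) :
    ev (mC i e he C).1 n n' = ev C.1 n (i n') - e * ev C.1 n' (i n) := rfl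

end Pool.Agent.TG
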