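import Pool.Agent.TG.Step

/-!
# TG-REC: the defects vanish

PLAN.  `low_dvd`: if all degrees of `M` are `≥ m` then `X ^ (2 * m)` divides `M.s e`
(`hp_dvd`, `syG_p`, `bilp_apply`: for `i + j = d < 2 m` one of `i, j` is `< m`), `hp M ^ 2` and
`expand 2 (hp M)` (`X ^ m ∣ hp M` by `hp_dvd`; `expand` is a ring homomorphism with
`expand 2 (X ^ m) = X ^ (2 m)`), hence `M.tt` and `M.bb`.
`rec_dvd`: induction on `n` with `step`.
`tt_zero`: degree bounds.  `(M.s e).coeff d = 0` for `d > 2 t` (`hp_coeff_zero`, `syG_p`,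
`bilp_apply`, `Grd.p_ge`: for `i + j = d > 2 t` one of `i, j` is `≥ t + 1 ≥ M.H.top`);
`natDegree (hp G) ≤ s`, `natDegree (hp M) ≤ t`, `natDegree_expand`; so the degrees of `M.tt`,
`M.bb` are at most `2 s + 2 t`, and `X ^ (2 (s + t + 1))` divides them.
`dims`: evaluate at `1` (`hp_eval`, `expand_eval`: `(expand R 2 p).eval 1 = p.eval 1`); if
`finrank k A = 0` then `A`, `M` are trivial and everything is `0`.
-/

set_option autoImplicit false

noncomputable section

universe u

namespace Pool.Agent.TG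

open Polynomial

variable {k A : Type u} [Field k] [CommRing A] [Algebra k A] {G : GAlg k A}

private theorem rec_syG_zero (M : GM k A G) (e : k) (d : ℕ)
    (h : ∀ i, i ≤ d → (∀ x, M.H.p i x = 0) ∨ ∀ x, M.H.p (d - i) x = 0)
    (B : Sy k A M.X e) : (syG M.hc e).p d B = 0 := by
  refine Subtype.ext ?_
  rw [syG_p]
  refine BF.ext (fun v w => ?_)
  rw [bilp_apply]
  have hz : ev ((0 : Sy k A M.X e) : BF k M.X M.X) v w = 0 := rfl
  rw [hz]
  refine Finset.sum_eq_zero (fun i hi => ?_)
  have hi' := Finset.mem_range.mp hi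
  rcases h i (by omega) with h1 | h1
  · rw [h1, ev_zero_left]
  · rw [h1, ev_zero_right]

theorem low_dvd (M : GM k A G) (m : ℕ) (hl : M.low m) :
    X ^ (2 * m) ∣ M.tt ∧ X ^ (2 * m) ∣ M.bb := by
  have hs : ∀ e : k, X ^ (2 * m) ∣ M.s e := by
    intro e
    refine hp_dvd _ (fun j hj B => ?_)
    exact rec_syG_zero M e j (fun i hi => by
      by_cases h : i < m
      · exact Or.inl (hl i h)
      · exact Or.inr (hl (j - i) (by omega))) B
  have hv : X ^ m ∣ hp M.H := hp_dvd _ hl
  have hv2 : X ^ (2 * m) ∣ hp M.H ^ 2 := by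
    have := pow_dvd_pow_of_dvd hv 2
    rwa [← pow_mul, mul_comm m 2] at this
  have hve : X ^ (2 * m) ∣ expand ℤ 2 (hp M.H) := by
    have := map_dvd (expand ℤ 2) hv
    rwa [map_pow, expand_X, ← pow_mul] at this
  constructor
  · unfold GM.tt
    exact dvd_sub ((dvd_sub (hs 1) (hs (-1))).mul_right _) (hve.mul_left _)
  · unfold GM.bb
    exact dvd_sub ((dvd_add (hs 1) (hs (-1))).mul_right _) hv2

theorem rec_dvd [Module.Finite k A] (h2 : (2 : k) ≠ 0) (n : ℕ) :
    ∀ (M : GM k A G) (m : ℕ), M.low m → Van k A M.X (2 * n) →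
      X ^ (2 * (m + n)) ∣ M.tt ∧ X ^ (2 * (m + n)) ∣ M.bb := by
  induction n with
  | zero =>
    intro M m hl _
    exact low_dvd M m hl
  | succ n ih =>
    intro M m hl hv
    obtain ⟨N, h1, h3, h4, h5⟩ := step h2 M m (2 * n) hl hv
    obtain ⟨h6, h7⟩ := ih N (m + 1) h1 h3
    have e : 2 * (m + (n + 1)) = 2 * (m + 1 + n) := by omega
    rw [e, h4, h5]
    exact ⟨(dvd_neg).mpr h6, h7⟩

theorem defects_zero [Module.Finite k A] (h2 : (2 : k) ≠ 0) (M : GM k A G) (s t : ℕ)
    (hs : G.top ≤ s + 1) (ht : M.H.top ≤ t + 1) (hv : Van k A M.X (2 * s + 2 * t + 2)) :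
    M.tt = 0 ∧ M.bb = 0 := by
  have hd := rec_dvd h2 (s + t + 1) M 0 (fun j hj => absurd hj (Nat.not_lt_zero j)) (by
    have e : 2 * (s + t + 1) = 2 * s + 2 * t + 2 := by ring
    rw [e]
    exact hv)
  have hh : (hp G.toGrd).natDegree ≤ s := by
    rw [natDegree_le_iff_coeff_eq_zero]
    intro N hN
    exact hp_coeff_zero _ (fun v => G.toGrd.p_ge (by omega) v)
  have hvd : (hp M.H).natDegree ≤ t := by
    rw [natDegree_le_iff_coeff_eq_zero]
    intro N hN
    exact hp_coeff_zero _ (fun v => M.H.p_ge (by omega) v)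
  have hs1 : ∀ e : k, (M.s e).natDegree ≤ 2 * t := by
    intro e
    rw [natDegree_le_iff_coeff_eq_zero]
    intro N hN
    refine hp_coeff_zero _ (fun B => ?_)
    refine rec_syG_zero M e N (fun i hi => ?_) B
    by_cases h : t + 1 ≤ i
    · exact Or.inl (fun x => M.H.p_ge (by omega) x)
    · exact Or.inr (fun x => M.H.p_ge (by omega) x)
  have hxe : (expand ℤ 2 (hp M.H)).natDegree ≤ 2 * t := by
    rw [natDegree_expand]
    omega
  have hhe : (expand ℤ 2 (hp G.toGrd)).natDegree ≤ 2 * s := by
    rw [natDegree_expand]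
    omega
  have key : ∀ p : ℤ[X], X ^ (2 * (0 + (s + t + 1))) ∣ p → p.natDegree ≤ 2 * s + 2 * t →
      p = 0 := by
    intro p hp1 hp2
    refine eq_zero_of_dvd_of_natDegree_lt hp1 ?_
    rw [natDegree_X_pow]
    omega
  constructor
  · refine key _ hd.1 ?_
    unfold GM.tt
    refine (natDegree_sub_le _ _).trans (max_le ?_ ?_)
    · have h3 := natDegree_mul_le_of_le
        (natDegree_sub_le_of_le (hs1 1) (hs1 (-1))) hhe
      rw [max_self] at h3
      omega
    · have h3 := natDegree_mul_le_of_le hh hxe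
      omega
  · refine key _ hd.2 ?_
    unfold GM.bb
    refine (natDegree_sub_le _ _).trans (max_le ?_ ?_)
    · have h3 := natDegree_mul_le_of_le
        (natDegree_add_le_of_le (hs1 1) (hs1 (-1))) hh
      rw [max_self] at h3
      omega
    · have h3 := natDegree_pow_le_of_le 2 hvd
      omega

theorem dims [Module.Finite k A] (h2 : (2 : k) ≠ 0) (M : GM k A G) (s t : ℕ)
    (hs : G.top ≤ s + 1) (ht : M.H.top ≤ t + 1) (hv : Van k A M.X (2 * s + 2 * t + 2)) :
    Module.finrank k (Sy k A M.X 1) =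
        Module.finrank k (Sy k A M.X (-1)) + Module.finrank k M.X ∧
      (Module.finrank k (Sy k A M.X 1) + Module.finrank k (Sy k A M.X (-1))) *
        Module.finrank k A = Module.finrank k M.X ^ 2 := by
  obtain ⟨h3, h4⟩ := defects_zero h2 M s t hs ht hv
  by_cases ha : Module.finrank k A = 0
  · have hA : Subsingleton A := Module.finrank_zero_iff.mp ha
    have hM : Subsingleton M.X := Module.subsingleton A M.X
    have hB : Subsingleton (BF k M.X M.X) := ⟨fun B B' => BF.ext (fun v w => by
      rw [Subsingleton.elim v 0, ev_zero_left, ev_zero_left])⟩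
    have h5 : Module.finrank k (Sy k A M.X 1) = 0 := Module.finrank_zero_of_subsingleton
    have h6 : Module.finrank k (Sy k A M.X (-1)) = 0 := Module.finrank_zero_of_subsingleton
    have h7 : Module.finrank k M.X = 0 := Module.finrank_zero_of_subsingleton
    rw [h5, h6, h7]
    simp
  · have e1 := congrArg (Polynomial.eval 1) h3
    have e2 := congrArg (Polynomial.eval 1) h4
    unfold GM.tt at e1
    unfold GM.bb at e2
    unfold GM.s at e1 e2
    rw [eval_sub, eval_mul, eval_sub, eval_mul, expand_eval, expand_eval, one_pow, hp_eval,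
      hp_eval, hp_eval, hp_eval, eval_zero] at e1
    rw [eval_sub, eval_mul, eval_add, eval_pow, hp_eval, hp_eval, hp_eval, hp_eval,
      eval_zero] at e2
    have ha' : (Module.finrank k A : ℤ) ≠ 0 := by exact_mod_cast ha
    constructor
    · have h5 : ((Module.finrank k (Sy k A M.X 1) : ℤ) - Module.finrank k (Sy k A M.X (-1))) =
          Module.finrank k M.X := by
        apply mul_right_cancel₀ ha'
        linarith
      have h6 : (Module.finrank k (Sy k A M.X 1) : ℤ) =
          Module.finrank k (Sy k A M.X (-1)) + Module.finrank k M.X := by linarith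
      exact_mod_cast h6
    · have h5 : ((Module.finrank k (Sy k A M.X 1) : ℤ) + Module.finrank k (Sy k A M.X (-1))) *
          Module.finrank k A = (Module.finrank k M.X : ℤ) ^ 2 := by linarith
      exact_mod_cast h5

end Pool.Agent.TG
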