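import Pool.Agent.TG.Rec

/-!
# TG: the sharp range of Ext

First `M.bb = 0` (its degree is at most `2 t + s`); then the degree of `M.s 1 + M.s (-1)` is
`2 deg hp M - deg hp A`, and the degree of `M.tt` is at most `2 t + s` too.
-/

set_option autoImplicit false

noncomputable section

universe u

namespace Pool.Agent.TG

open Polynomial

variable {k A : Type u} [Field k] [CommRing A] [Algebra k A] {G : GAlg k A}

private theorem recS_syG_zero (M : GM k A G) (e : k) (d : ℕ)
    (h : ∀ i, i ≤ d → (∀ x, M.H.p i x = 0) ∨ ∀ x, M.H.p (d - i) x = 0)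
    (B : Sy k A M.X e) : (syG M.hc e).p d B = 0 := by
  refine Subtype.ext ?_
  rw [syG_p]
  refine BF.ext (fun v w => ?_)
  rw [bilp_apply]
  have hz : ev ((0 : Sy k A M.X e) : BF k M.X M.X) v w = 0 := rfl
  rw [hz]
  refine Finset.sum_eq_zero (fun i hi => ?_)
  have hi' := Finset.mem_range.mp hi
  rcases h i (by omega) with h1 | h1
  · rw [h1, ev_zero_left]
  · rw [h1, ev_zero_right]

theorem defects_zero_sharp [Module.Finite k A] (h2 : (2 : k) ≠ 0) (M : GM k A G) (s t : ℕ)
    (hs : G.top ≤ s + 1) (ht : M.H.top ≤ t + 1) (hv : Van k A M.X (2 * t + s + 2)) :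
    M.tt = 0 ∧ M.bb = 0 := by
  have hd := rec_dvd h2 (t + s / 2 + 1) M 0 (fun j hj => absurd hj (Nat.not_lt_zero j))
    (fun i h1 hi => hv i h1 (by omega))
  have hh : (hp G.toGrd).natDegree ≤ s := by
    rw [natDegree_le_iff_coeff_eq_zero]
    intro N hN
    exact hp_coeff_zero _ (fun v => G.toGrd.p_ge (by omega) v)
  have hvd : (hp M.H).natDegree ≤ t := by
    rw [natDegree_le_iff_coeff_eq_zero]
    intro N hN
    exact hp_coeff_zero _ (fun v => M.H.p_ge (by omega) v)
  have hs1 : ∀ e : k, (M.s e).natDegree ≤ 2 * t := by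
    intro e
    rw [natDegree_le_iff_coeff_eq_zero]
    intro N hN
    refine hp_coeff_zero _ (fun B => ?_)
    refine recS_syG_zero M e N (fun i hi => ?_) B
    by_cases h : t + 1 ≤ i
    · exact Or.inl (fun x => M.H.p_ge (by omega) x)
    · exact Or.inr (fun x => M.H.p_ge (by omega) x)
  have key : ∀ p : ℤ[X], X ^ (2 * (0 + (t + s / 2 + 1))) ∣ p → p.natDegree ≤ 2 * t + s →
      p = 0 := by
    intro p hp1 hp2
    refine eq_zero_of_dvd_of_natDegree_lt hp1 ?_
    rw [natDegree_X_pow]
    omega
  have hbb : M.bb = 0 := by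
    refine key _ hd.2 ?_
    unfold GM.bb
    refine (natDegree_sub_le _ _).trans (max_le ?_ ?_)
    · have h3 := natDegree_mul_le_of_le
        (natDegree_add_le_of_le (hs1 1) (hs1 (-1))) hh
      rw [max_self] at h3
      omega
    · have h3 := natDegree_pow_le_of_le 2 hvd
      omega
  refine ⟨?_, hbb⟩
  have hnn : ∀ (e : k) (n : ℕ), 0 ≤ (M.s e).coeff n := by
    intro e n
    rw [GM.s, hp_coeff]
    positivity
  by_cases hz : hp G.toGrd = 0
  · unfold GM.tt
    rw [hz]
    simp
  have e1 : (M.s 1 + M.s (-1)) * hp G.toGrd = hp M.H ^ 2 := by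
    unfold GM.bb at hbb
    exact sub_eq_zero.mp hbb
  -- degree of the difference
  have hdeg : (M.s 1 - M.s (-1)).natDegree ≤ (M.s 1 + M.s (-1)).natDegree := by
    rw [natDegree_le_iff_coeff_eq_zero]
    intro N hN
    have h3 : (M.s 1 + M.s (-1)).coeff N = 0 := coeff_eq_zero_of_natDegree_lt hN
    rw [coeff_add] at h3
    have h4 := hnn 1 N
    have h5 := hnn (-1) N
    rw [coeff_sub]
    omega
  have hsum : (M.s 1 + M.s (-1)).natDegree + 2 * (hp G.toGrd).natDegree ≤ 2 * t + s ∨
      M.s 1 - M.s (-1) = 0 := by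
    by_cases hP : M.s 1 + M.s (-1) = 0
    · right
      ext N
      have h3 : (M.s 1 + M.s (-1)).coeff N = 0 := by rw [hP, coeff_zero]
      rw [coeff_add] at h3
      have h4 := hnn 1 N
      have h5 := hnn (-1) N
      rw [coeff_sub, coeff_zero]
      omega
    · left
      have h3 := congrArg natDegree e1
      rw [natDegree_mul hP hz, natDegree_pow] at h3
      omega
  refine key _ hd.1 ?_
  unfold GM.tt
  refine (natDegree_sub_le _ _).trans (max_le ?_ ?_)
  · rcases hsum with h3 | h3
    · refine (natDegree_mul_le).trans ?_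
      rw [natDegree_expand]
      omega
    · rw [h3, zero_mul]
      simp
  · refine (natDegree_mul_le).trans ?_
    rw [natDegree_expand]
    omega

theorem dims_sharp [Module.Finite k A] (h2 : (2 : k) ≠ 0) (M : GM k A G) (s t : ℕ)
    (hs : G.top ≤ s + 1) (ht : M.H.top ≤ t + 1) (hv : Van k A M.X (2 * t + s + 2)) :
    Module.finrank k (Sy k A M.X 1) =
        Module.finrank k (Sy k A M.X (-1)) + Module.finrank k M.X ∧
      (Module.finrank k (Sy k A M.X 1) + Module.finrank k (Sy k A M.X (-1))) *
        Module.finrank k A = Module.finrank k M.X ^ 2 := by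
  obtain ⟨h3, h4⟩ := defects_zero_sharp h2 M s t hs ht hv
  by_cases ha : Module.finrank k A = 0
  · have hA : Subsingleton A := Module.finrank_zero_iff.mp ha
    have hM : Subsingleton M.X := Module.subsingleton A M.X
    have hB : Subsingleton (BF k M.X M.X) := ⟨fun B B' => BF.ext (fun v w => by
      rw [Subsingleton.elim v 0, ev_zero_left, ev_zero_left])⟩
    have h5 : Module.finrank k (Sy k A M.X 1) = 0 := Module.finrank_zero_of_subsingleton
    have h6 : Module.finrank k (Sy k A M.X (-1)) = 0 := Module.finrank_zero_of_subsingleton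
    have h7 : Module.finrank k M.X = 0 := Module.finrank_zero_of_subsingleton
    rw [h5, h6, h7]
    simp
  · have e1 := congrArg (Polynomial.eval 1) h3
    have e2 := congrArg (Polynomial.eval 1) h4
    unfold GM.tt at e1
    unfold GM.bb at e2
    unfold GM.s at e1 e2
    rw [eval_sub, eval_mul, eval_sub, eval_mul, expand_eval, expand_eval, one_pow, hp_eval,
      hp_eval, hp_eval, hp_eval, eval_zero] at e1
    rw [eval_sub, eval_mul, eval_add, eval_pow, hp_eval, hp_eval, hp_eval, hp_eval,
      eval_zero] at e2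
    have ha' : (Module.finrank k A : ℤ) ≠ 0 := by exact_mod_cast ha
    constructor
    · have h5 : ((Module.finrank k (Sy k A M.X 1) : ℤ) - Module.finrank k (Sy k A M.X (-1))) =
          Module.finrank k M.X := by
        apply mul_right_cancel₀ ha'
        linarith
      have h6 : (Module.finrank k (Sy k A M.X 1) : ℤ) =
          Module.finrank k (Sy k A M.X (-1)) + Module.finrank k M.X := by linarith
      exact_mod_cast h6
    · have h5 : ((Module.finrank k (Sy k A M.X 1) : ℤ) + Module.finrank k (Sy k A M.X (-1))) *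
          Module.finrank k A = (Module.finrank k M.X : ℤ) ^ 2 := by linarith
      exact_mod_cast h5

end Pool.Agent.TG
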