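import Pool.Agent.TG.BFr

/-!
# TG-SFR: symmetric and antisymmetric forms on `A^r`

PLAN.  A form `B ∈ S^e(A^r)` is determined by the functionals `φ_{s t}(a) = B(e_s, a e_t)`
(`e_t = Pi.single t 1`), and `φ_{t s}(a) = B(e_t, a e_s) = e B(a e_s, e_t) = e B(e_s, a e_t)
= e φ_{s t}(a)`.  For `e = 1`: linear equivalence
`S^1(A^r) ≃ Π q : {q : Fin r × Fin r // q.1 ≤ q.2}, A^*`, inverse
`B(v, w) = ∑ s t, φ_{min s t, max s t}(v s * w t)`.  For `e = -1` the same with `q.1 < q.2` and
the sign (`φ_{tt} = 0` because `2 ≠ 0`).  Gradings: `syG (cmp_fr G dg) e` corresponds to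
`Grd.pi (fun _ => G.toGrd.dual) (fun q => dg q.1.1 + dg q.1.2)`: by `bilp_apply`, `frG_single`:
`(B_d)(e_s, a e_t) = ∑ i ≤ d, B(p_i e_s, p_(d-i) (a e_t))`, only `i = dg s` contributes, and
`p_j (a e_t) = (p_(j - dg t) a) e_t` if `dg t ≤ j`, and `0` otherwise (`Grd.pi_p`).
Then `hp_iso`, `hp_pi`, `hp_dual` and `Finset.sum_subtype` (or `Finset.sum_filter`,
`Finset.sum_coe_sort`).
To save work prove one lemma for both signs: for a predicate `P` on `Fin r × Fin r` and `e`
such that each family of functionals indexed by `{q // P q}` comes from exactly one form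
(private lemma).
-/

set_option autoImplicit false

noncomputable section

universe u

namespace Pool.Agent.TG

open Polynomial

variable {k A : Type u} [Field k] [CommRing A] [Algebra k A]

private theorem smul_single_one {r : ℕ} (t : Fin r) (a : A) :
    a • (Pi.single t 1 : Fin r → A) = Pi.single t a := by
  rw [← Pi.single_smul', smul_eq_mul, mul_one]

private theorem sy_ext {r : ℕ} {e : k} (B : Sy k A (Fin r → A) e)
    (h : ∀ (s t : Fin r) (a : A), ev B.1 (Pi.single s 1) (Pi.single t a) = 0) : B = 0 := by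
  refine Subtype.ext (BF.ext (fun v w => ?_))
  have h1 : ∀ s t : Fin r, ev B.1 (Pi.single s (v s)) (Pi.single t (w t)) = 0 := by
    intro s t
    rw [← smul_single_one s (v s), B.2.1, ← smul_single_one t (w t), ← mul_smul,
      smul_single_one]
    exact h s t _
  have hv : v = ∑ s, Pi.single s (v s) := (Finset.univ_sum_single v).symm
  have hw : w = ∑ t, Pi.single t (w t) := (Finset.univ_sum_single w).symm
  conv_lhs => rw [hv, hw]
  rw [ev_sum_left]
  simp only [ev_sum_right, h1]
  simp

private theorem sy_exists {r : ℕ} {e : k} (Φ : Fin r → Fin r → Du k A)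
    (h : ∀ s t, Φ s t = e • Φ t s) :
    ∃ B : Sy k A (Fin r → A) e, ∀ (s t : Fin r) (a : A),
      ev B.1 (Pi.single s 1) (Pi.single t a) = Du.fn (Φ s t) a := by
  refine ⟨⟨BF.mk (fun v w => ∑ s, ∑ t, Du.fn (Φ s t) (v s * w t)) ?_ ?_ ?_ ?_, ?_, ?_⟩, ?_⟩
  · intro v v' w
    simp only [Pi.add_apply, add_mul, map_add, Finset.sum_add_distrib]
  · intro c v w
    simp only [Pi.smul_apply, smul_mul_assoc, map_smul, smul_eq_mul, Finset.mul_sum]
  · intro v w w'
    simp only [Pi.add_apply, mul_add, map_add, Finset.sum_add_distrib]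
  · intro c v w
    simp only [Pi.smul_apply, mul_smul_comm, map_smul, smul_eq_mul, Finset.mul_sum]
  · intro a v w
    simp only [BF.ev_mk, Pi.smul_apply, smul_eq_mul]
    refine Finset.sum_congr rfl (fun s _ => Finset.sum_congr rfl (fun t _ => ?_))
    congr 1
    ring
  · intro v w
    simp only [BF.ev_mk, Finset.mul_sum]
    rw [Finset.sum_comm]
    refine Finset.sum_congr rfl (fun s _ => Finset.sum_congr rfl (fun t _ => ?_))
    rw [h t s, Du.fn_smul, mul_comm (v t)]
  · intro s t a
    simp only [BF.ev_mk]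
    rw [Finset.sum_eq_single s, Finset.sum_eq_single t]
    · simp
    · intro t' _ ht'
      simp [Pi.single_eq_of_ne ht']
    · intro ht
      exact absurd (Finset.mem_univ _) ht
    · intro s' _ hs'
      simp [Pi.single_eq_of_ne hs']
    · intro hs
      exact absurd (Finset.mem_univ _) hs

private theorem frG_single' (G : GAlg k A) {r : ℕ} (dg : Fin r → ℕ) (t : Fin r) (j : ℕ) (a : A) :
    (frG G dg).p j (Pi.single t a) =
      if dg t ≤ j then Pi.single t (G.p (j - dg t) a) else 0 := by
  funext s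
  rw [frG, Grd.pi_p]
  by_cases hst : s = t
  · subst hst
    split_ifs <;> simp
  · rw [Pi.single_eq_of_ne hst, map_zero]
    split_ifs
    · rw [Pi.single_eq_of_ne hst]
    · rfl
    · rw [Pi.single_eq_of_ne hst]
    · rfl

private theorem bilp_single (G : GAlg k A) {r : ℕ} (dg : Fin r → ℕ) (d : ℕ)
    (B : BF k (Fin r → A) (Fin r → A)) (s t : Fin r) (a : A) :
    ev (bilp (frG G dg) (frG G dg) d B) (Pi.single s 1) (Pi.single t a) =
      if dg s + dg t ≤ d then ev B (Pi.single s 1) (Pi.single t (G.p (d - (dg s + dg t)) a))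
      else 0 := by
  rw [bilp_apply]
  simp only [frG_single G dg s]
  simp only [frG_single']
  by_cases hs : dg s ≤ d
  · rw [Finset.sum_eq_single (dg s)]
    · rw [if_pos rfl]
      by_cases ht : dg t ≤ d - dg s
      · rw [if_pos ht, if_pos (by omega), Nat.sub_add_eq]
      · rw [if_neg ht, if_neg (by omega)]
        simp
    · intro i _ hi
      rw [if_neg hi]
      simp
    · intro h
      exact absurd (Finset.mem_range.mpr (by omega)) h
  · rw [if_neg (by omega)]
    refine Finset.sum_eq_zero (fun i hi => ?_)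
    have := Finset.mem_range.mp hi
    rw [if_neg (by omega)]
    simp

private theorem hp_sy_aux [Module.Finite k A] (G : GAlg k A) {r : ℕ} (dg : Fin r → ℕ) (e : k)
    (P : Fin r × Fin r → Prop) [DecidablePred P]
    (hinj : ∀ B : Sy k A (Fin r → A) e,
      (∀ s t, P (s, t) → ∀ a, ev B.1 (Pi.single s 1) (Pi.single t a) = 0) →
      ∀ (s t : Fin r) (a : A), ev B.1 (Pi.single s 1) (Pi.single t a) = 0)
    (hsurj : ∀ φ : Fin r → Fin r → Du k A, ∃ Φ : Fin r → Fin r → Du k A,
      (∀ s t, Φ s t = e • Φ t s) ∧ ∀ s t, P (s, t) → Φ s t = φ s t) :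
    hp (syG (cmp_fr G dg) e) = hp G.toGrd *
      ∑ q ∈ (Finset.univ : Finset (Fin r × Fin r)).filter P, X ^ (dg q.1 + dg q.2) := by
  classical
  let Ψ : Sy k A (Fin r → A) e →ₗ[k] (∀ _ : {q : Fin r × Fin r // P q}, Du k A) :=
    { toFun := fun B q => Du.mk
        { toFun := fun a => ev B.1 (Pi.single q.1.1 1) (Pi.single q.1.2 a)
          map_add' := fun a b => by rw [Pi.single_add, ev_add_right]
          map_smul' := fun c a => by
            rw [Pi.single_smul', ev_smul_right]
            rfl }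
      map_add' := fun B B' => by
        funext q
        exact Du.ext (fun a => rfl)
      map_smul' := fun c B => by
        funext q
        exact Du.ext (fun a => rfl) }
  have hΨ : ∀ (B : Sy k A (Fin r → A) e) (q : {q : Fin r × Fin r // P q}) (a : A),
      Du.fn (Ψ B q) a = ev B.1 (Pi.single q.1.1 1) (Pi.single q.1.2 a) := fun B q a => rfl
  have hinj' : Function.Injective Ψ := by
    rw [← LinearMap.ker_eq_bot, LinearMap.ker_eq_bot']
    intro B hB
    refine sy_ext B (hinj B (fun s t hst a => ?_))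
    rw [← hΨ B ⟨(s, t), hst⟩ a, hB]
    rfl
  have hsurj' : Function.Surjective Ψ := by
    intro φ
    obtain ⟨Φ, h1, h2⟩ := hsurj (fun s t => if h : P (s, t) then φ ⟨(s, t), h⟩ else 0)
    obtain ⟨B, hB⟩ := sy_exists Φ h1
    refine ⟨B, ?_⟩
    funext q
    obtain ⟨⟨s, t⟩, hq⟩ := q
    refine Du.ext (fun a => ?_)
    rw [hΨ, hB, h2 s t hq, dif_pos hq]
  have hh : Hom0 (syG (cmp_fr G dg) e)
      (Grd.pi (fun _ : {q : Fin r × Fin r // P q} => G.toGrd.dual)
        (fun q => dg q.1.1 + dg q.1.2)) (LinearEquiv.ofBijective Ψ ⟨hinj', hsurj'⟩).toLinearMap := by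
    intro i B
    change Ψ _ = (Grd.pi _ _).p i (Ψ B)
    funext q
    refine Du.ext (fun a => ?_)
    rw [hΨ, syG_p, bilp_single, Grd.pi_p]
    split_ifs with h
    · rw [Grd.dual_p, hΨ]
    · rfl
  rw [hp_iso _ _ _ hh, hp_pi, Finset.mul_sum]
  simp only [hp_dual]
  rw [Finset.sum_subtype (p := P) ((Finset.univ : Finset (Fin r × Fin r)).filter P)
    (fun x => by simp)]
  exact Finset.sum_congr rfl (fun q _ => mul_comm _ _)

private theorem sy_swap {r : ℕ} {e : k} (B : Sy k A (Fin r → A) e) (s t : Fin r) (a : A) :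
    ev B.1 (Pi.single s 1) (Pi.single t a) = e * ev B.1 (Pi.single t 1) (Pi.single s a) := by
  rw [← smul_single_one t a, ← B.2.1, B.2.2, smul_single_one]

theorem hp_sy_one [Module.Finite k A] (G : GAlg k A) {r : ℕ} (dg : Fin r → ℕ) :
    hp (syG (cmp_fr G dg) 1) = hp G.toGrd *
      ∑ q ∈ (Finset.univ : Finset (Fin r × Fin r)).filter (fun q => q.1 ≤ q.2),
        X ^ (dg q.1 + dg q.2) := by
  refine hp_sy_aux G dg 1 (fun q => q.1 ≤ q.2) ?_ ?_
  · intro B h s t a
    rcases le_total s t with hst | hst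
    · exact h s t hst a
    · rw [sy_swap, h t s hst a, mul_zero]
  · intro φ
    refine ⟨fun s t => φ (min s t) (max s t), ?_, ?_⟩
    · intro s t
      simp only [one_smul]
      rw [min_comm, max_comm]
    · intro s t hst
      simp only at hst
      simp only [min_eq_left hst, max_eq_right hst]

theorem hp_sy_neg [Module.Finite k A] (G : GAlg k A) (h2 : (2 : k) ≠ 0) {r : ℕ}
    (dg : Fin r → ℕ) :
    hp (syG (cmp_fr G dg) (-1)) = hp G.toGrd *
      ∑ q ∈ (Finset.univ : Finset (Fin r × Fin r)).filter (fun q => q.1 < q.2),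
        X ^ (dg q.1 + dg q.2) := by
  refine hp_sy_aux G dg (-1) (fun q => q.1 < q.2) ?_ ?_
  · intro B h s t a
    rcases lt_trichotomy s t with hst | hst | hst
    · exact h s t hst a
    · subst hst
      have h3 := sy_swap B s s a
      have h4 : (2 : k) * ev B.1 (Pi.single s 1) (Pi.single s a) = 0 := by
        linear_combination h3
      exact (mul_eq_zero.mp h4).resolve_left h2
    · rw [sy_swap, h t s hst a, mul_zero]
  · intro φ
    refine ⟨fun s t => if s < t then φ s t else if t < s then -φ t s else 0, ?_, ?_⟩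
    · intro s t
      rcases lt_trichotomy s t with hst | hst | hst
      · simp [hst, hst.not_gt]
      · subst hst
        simp
      · simp [hst, hst.not_gt]
    · intro s t hst
      exact if_pos hst

end Pool.Agent.TG
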