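import Pool.Agent.TG.Four
import Pool.Agent.TG.Pol
import Pool.Agent.TG.Ker
import Pool.Agent.TG.VData

/-!
# TG-STEP: one syzygy step

PLAN.  `exists_cover` gives `N`, `i`, `π`.  `LA, LB, LC` from `van_LA`, `van_LB`, `ext_C`
(basis `Pi.basisFun A (Fin r)`), `Van N q` from `van_next`.
Put `h = hp G`, `v = hp M = ∑ X ^ dg t`.  `hp N = h * v - v` (`hp_short`, `hp_fr`).
`hp_seq` with `e = 1` and `e = -1` (note `- -1 = 1`, so `M.s`), `hp_bil_fr`, `sy_fr_add`,
`sy_fr_sub`: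
`s1 M + (h v - v) v = s1 F + s(-1) N`, `s(-1) M + (h v - v) v = s(-1) F + s1 N`,
`s1 F + s(-1) F = h v ^ 2`, `s1 F - s(-1) F = h * expand 2 v`.
`linear_combination` finishes (`map_mul`, `map_sub` for `expand ℤ 2`).
-/

set_option autoImplicit false

noncomputable section

universe u

namespace Pool.Agent.TG

open Polynomial

variable {k A : Type u} [Field k] [CommRing A] [Algebra k A] {G : GAlg k A}

theorem step [Module.Finite k A] (h2 : (2 : k) ≠ 0) (M : GM k A G) (m q : ℕ) (hl : M.low m)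
    (hv : Van k A M.X (q + 2)) :
    ∃ N : GM k A G, N.low (m + 1) ∧ Van k A N.X q ∧ M.tt = -N.tt ∧ M.bb = N.bb := by
  obtain ⟨r, dg, N, i, π, hi, hπ, hex, hgi, hgπ, hlow, hv0⟩ := exists_cover M m hl
  have hv1 : Van k A M.X 1 := fun j h1 h1' => hv j h1 (by omega)
  have hv2 : Van k A M.X 2 := fun j h1 h1' => hv j h1 (by omega)
  have LA := van_LA i π hi hπ hex hv1
  have LB := van_LB (Pi.basisFun A (Fin r)) i π hi hπ hex hv2
  have LC := ext_C (k := k) (N := N.X) (F := Fin r → A) (Pi.basisFun A (Fin r)) i hi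
  refine ⟨N, hlow, van_next (Pi.basisFun A (Fin r)) i π hi hπ hex q hv, ?_⟩
  have E1 := hp_seq (cmp_fr G dg) M.hc N.hc i π hπ hex hgi hgπ h2 1 (by ring) LA LB LC
  have E2 := hp_seq (cmp_fr G dg) M.hc N.hc i π hπ hex hgi hgπ h2 (-1) (by ring) LA LB LC
  rw [neg_neg] at E2
  have E3 := hp_bil_fr G N.hc dg
  have E4 : hp (frG G dg) = hp N.H + hp M.H :=
    hp_short N.H (frG G dg) M.H (i.restrictScalars k) (π.restrictScalars k) hi hπ
      (by
        ext x
        exact (Submodule.ext_iff.mp hex x))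
      (fun d n => hgi d n) (fun d f => hgπ d f)
  have E5 := hp_fr G dg
  have E6 := sy_fr_add G h2 dg
  have E7 := sy_fr_sub G h2 dg
  rw [← hv0] at E3 E5 E6 E7
  rw [E3] at E1 E2
  have hN : hp N.H = hp G.toGrd * hp M.H - hp M.H := by
    rw [← E5, E4]
    ring
  constructor
  · change (hp (syG M.hc 1) - hp (syG M.hc (-1))) * expand ℤ 2 (hp G.toGrd) -
        hp G.toGrd * expand ℤ 2 (hp M.H) =
      -((hp (syG N.hc 1) - hp (syG N.hc (-1))) * expand ℤ 2 (hp G.toGrd) -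
        hp G.toGrd * expand ℤ 2 (hp N.H))
    rw [hN, map_sub, map_mul]
    linear_combination (E1 - E2) * expand ℤ 2 (hp G.toGrd) + E7 * expand ℤ 2 (hp G.toGrd)
  · change (hp (syG M.hc 1) + hp (syG M.hc (-1))) * hp G.toGrd - hp M.H ^ 2 =
      (hp (syG N.hc 1) + hp (syG N.hc (-1))) * hp G.toGrd - hp N.H ^ 2
    rw [hN] at E1 E2 ⊢
    linear_combination (E1 + E2) * hp G.toGrd + E6 * hp G.toGrd

end Pool.Agent.TG
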